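import Mathlib

namespace Pool.Agent.Results.MP_98930f_lc.Q1

variable {d n : ℕ}

/-- The configuration `(p, v)` visits `x`. -/
def Visits (p v x : Fin d → ℤ) : Prop :=
  (fun k => (x k : ℝ)) ∈ segment ℝ (fun k => ((p k - v k : ℤ) : ℝ)) (fun k => (p k : ℝ))

/-- `(p i, v i)`, `i ≤ l`, is a feasible trajectory of length `l` for the cities `x`. -/
def Feasible (x : Fin (n + 1) → Fin d → ℤ) (l : ℕ) (p v : ℕ → Fin d → ℤ) : Prop :=
  (∀ i < l, v (i + 1) = p (i + 1) - p i ∧ ∀ k, v (i + 1) k - v i k ∈ ({-1, 0, 1} : Set ℤ)) ∧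
    p 0 = x 0 ∧ v 0 = 0 ∧ p l = x (Fin.last n) ∧ v l = 0 ∧
    ∃ idx : Fin (n + 1) → ℕ, Monotone idx ∧ ∀ j, idx j ≤ l ∧ Visits (p (idx j)) (v (idx j)) (x j)

def Optimal (x : Fin (n + 1) → Fin d → ℤ) (l : ℕ) (p v : ℕ → Fin d → ℤ) : Prop :=
  Feasible x l p v ∧ ∀ l' p' v', Feasible x l' p' v' → l ≤ l'

/-- The largest coordinate difference between two cities. -/
def L (x : Fin (n + 1) → Fin d → ℤ) : ℕ :=
  Finset.univ.sup fun t : Fin (n + 1) × Fin (n + 1) × Fin d => (x t.1 t.2.2 - x t.2.1 t.2.2).natAbs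

def X : Fin 3 → Fin 2 → ℤ := ![![3, 0], ![3, 3], ![0, 3]]

def P (i : ℕ) : Fin 2 → ℤ := ![[3, 3, 3, 2, 1, 0, 0].getD i 0, [0, 1, 3, 4, 4, 3, 3].getD i 0]

def V (i : ℕ) : Fin 2 → ℤ := ![[0, 0, 0, -1, -1, -1, 0].getD i 0, [0, 1, 2, 1, 0, -1, 0].getD i 0]

lemma feas : Feasible X 6 P V := by
  refine ⟨by simp only [Set.mem_insert_iff, Set.mem_singleton_iff]; decide, by decide, by decide,
    by decide, by decide, ![0, 2, 6], by decide, fun j => ⟨by revert j; decide, ?_⟩⟩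
  have : X j = P (![0, 2, 6] j) := by revert j; decide
  rw [this]
  exact right_mem_segment _ _ _

lemma visits_slow {p v x : Fin d → ℤ} (h : Visits p v x) (hv : ∀ k, |v k| ≤ 1) :
    x = p ∨ x = p - v := by
  obtain ⟨a, b, ha, hb, hab, e⟩ := h
  have key : ∀ k, (x k : ℝ) = p k - a * v k := fun k => by
    have := congrFun e k
    simp only [Pi.add_apply, Pi.smul_apply, smul_eq_mul, Int.cast_sub] at this
    rw [← this, show b = 1 - a by linarith]; ring
  by_cases h1 : a = 1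
  · exact Or.inr (funext fun k => by have := key k; rw [h1, one_mul] at this; exact_mod_cast this)
  · left
    funext k
    have h2 : a < 1 := lt_of_le_of_ne (by linarith) h1
    have h3 : |((p k - x k : ℤ) : ℝ)| < 1 := by
      have h4 : |(v k : ℝ)| ≤ 1 := by exact_mod_cast hv k
      rw [Int.cast_sub, key k, sub_sub_cancel, abs_mul, abs_of_nonneg ha]
      nlinarith [abs_nonneg (v k : ℝ)]
    have h5 : |p k - x k| < 1 := by exact_mod_cast h3
    rw [abs_lt] at h5; omega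

theorem result : ¬ ∀ d ≥ 1, ∀ (n : ℕ) (x : Fin (n + 1) → Fin d → ℤ), ∃ l p v,
    Optimal x l p v ∧ ∀ i ≤ l, ∀ k, (|v i k| : ℝ) ≤ √(L x) := by
  intro H
  obtain ⟨l, p, v, ⟨⟨h1, h2, h3, h4, h5, idx, -, h6⟩, hl⟩, hv⟩ := H 2 (by norm_num) 2 X
  replace hl := hl _ _ _ feas
  replace hv : ∀ i ≤ l, ∀ k, |v i k| ≤ 1 := fun i hi k => by
    have h := hv i hi k
    rw [show L X = 3 by decide] at h
    have : (|v i k| : ℝ) < 2 := h.trans_lt ((Real.sqrt_lt' two_pos).2 (by norm_num))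
    have : |v i k| < 2 := by exact_mod_cast this
    omega
  have st : ∀ i < l, ∀ k, v (i + 1) k = p (i + 1) k - p i k := fun i hi k => congrFun (h1 i hi).1 k
  have bd : ∀ k i m, i + m ≤ l → |p (i + m) k - p i k| ≤ m := by
    intro k i m
    induction m with
    | zero => simp
    | succ m ih =>
      intro h
      have a := abs_le.1 (ih (by omega))
      have b := abs_le.1 (hv (i + m + 1) h k)
      have c := st (i + m) (by omega) k
      rw [← add_assoc, abs_le]; push_cast; omega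
  obtain ⟨j, hj, e⟩ : ∃ j ≤ l, p j = X 1 := by
    rcases visits_slow (h6 1).2 (hv _ (h6 1).1) with e | e
    · exact ⟨_, (h6 1).1, e.symm⟩
    · rcases hi : idx 1 with _ | i
      · exact ⟨0, by omega, by rw [e, hi, h3, sub_zero]⟩
      · have := (h6 1).1
        exact ⟨i, by omega, by rw [e, hi, (h1 i (by omega)).1, sub_sub_cancel]⟩
  have a0 : p 0 1 = 0 := congrFun h2 1
  have a1 : p j 1 = 3 := congrFun e 1
  have a2 : p j 0 = 3 := congrFun e 0
  have a3 : p l 0 = 0 := congrFun h4 0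
  have b1 := abs_le.1 (bd 1 0 j (by omega))
  rw [zero_add] at b1
  obtain ⟨m, rfl⟩ : ∃ m, l = j + m + 1 := ⟨l - j - 1, by
    have : j ≠ l := fun h => by rw [h] at a2; omega
    omega⟩
  have b2 := abs_le.1 (bd 0 j m (by omega))
  have b3 := st (j + m) (by omega) 0
  have b4 : v (j + m + 1) 0 = 0 := congrFun h5 0
  omega

end Pool.Agent.Results.MP_98930f_lc.Q1
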